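import Mathlib

/-!
Brouwer's fixed point theorem (Milnor-Rogers proof) in a finite dimensional real
inner product space, and a zero of an inward pointing vector field.
-/

open MeasureTheory Metric Set Topology
open scoped ENNReal

namespace Pool.Agent.WN.Brouwer

variable {E : Type*} [NormedAddCommGroup E] [InnerProductSpace ℝ E] [FiniteDimensional ℝ E]

/-- Lagrange interpolation for `t ↦ det (1 + t A)`. -/
lemma det_lagrange (t : ℕ → ℝ) (ht : Function.Injective t) :
    ∃ w : ℕ → ℝ, (∀ A : E →L[ℝ] E,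
      (1 + A).det = ∑ j ∈ Finset.range (Module.finrank ℝ E + 1), w j * (1 + t j • A).det) := by
  classical
  set n := Module.finrank ℝ E with hn
  let b := Module.finBasis ℝ E
  let s := Finset.range (n + 1)
  have hinj : Set.InjOn t s := ht.injOn
  refine ⟨fun j => (Lagrange.basis s t j).eval 1, fun A => ?_⟩
  let M := LinearMap.toMatrix b b (A : E →ₗ[ℝ] E)
  let P : Polynomial ℝ := Matrix.det ((Polynomial.X : Polynomial ℝ) • M.map Polynomial.C
    + (1 : Matrix _ _ ℝ).map Polynomial.C)
  have hP : ∀ c : ℝ, P.eval c = (1 + c • A).det := by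
    intro c
    have h1 : P.eval c = Matrix.det (c • M + 1) := by
      simp only [P]
      rw [← Polynomial.coe_evalRingHom, RingHom.map_det]
      congr 1
      ext i j
      simp only [RingHom.mapMatrix_apply, Matrix.map_apply, Matrix.add_apply, Matrix.smul_apply,
        Matrix.one_apply]
      split_ifs <;> simp [mul_comm c]
    rw [h1]
    have h2 : (1 + c • A).det = LinearMap.det (1 + c • (A : E →ₗ[ℝ] E)) := rfl
    rw [h2, ← LinearMap.det_toMatrix b]
    congr 1
    simp [M, LinearMap.toMatrix_one, add_comm]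
  have hdeg : P.degree < s.card := by
    have h1 : P.natDegree ≤ Fintype.card (Fin n) := Polynomial.natDegree_det_X_add_C_le _ _
    have h2 : P.natDegree < s.card := by
      simp only [s, Finset.card_range]
      rw [Fintype.card_fin] at h1
      omega
    exact lt_of_le_of_lt Polynomial.degree_le_natDegree (by exact_mod_cast h2)
  have h := Lagrange.eq_interpolate hinj hdeg
  have h3 : P.eval 1 = ∑ j ∈ s, P.eval (t j) * (Lagrange.basis s t j).eval 1 := by
    conv_lhs => rw [h]
    rw [Lagrange.interpolate_apply, Polynomial.eval_finsetSum]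
    refine Finset.sum_congr rfl fun j _ => ?_
    simp
  have h4 := hP 1
  rw [one_smul] at h4
  rw [← h4, h3]
  refine Finset.sum_congr rfl fun j _ => ?_
  rw [hP]
  ring

variable [MeasurableSpace E] [BorelSpace E]

/-- There is no `C^1` retraction of the closed unit ball onto the unit sphere. -/
theorem no_retraction {r : E → E} {U : Set E} (hU : IsOpen U) (hBU : closedBall (0 : E) 1 ⊆ U)
    (hr : ContDiffOn ℝ 1 r U) (h1 : ∀ x ∈ closedBall (0 : E) 1, ‖r x‖ = 1)
    (h2 : ∀ x ∈ sphere (0 : E) 1, r x = x) : False := by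
  set g : E → E := fun x => r x - x with hg
  have hgU : ContDiffOn ℝ 1 g U := hr.sub contDiffOn_id
  have hgd : ∀ x ∈ U, DifferentiableAt ℝ g x := fun x hx =>
    (hgU.differentiableOn one_ne_zero).differentiableAt (hU.mem_nhds hx)
  have hgc : ContinuousOn (fderiv ℝ g) U := hgU.continuousOn_fderiv_of_isOpen hU le_rfl
  have hK : IsCompact (closedBall (0 : E) 1) := isCompact_closedBall _ _
  obtain ⟨L, hL1, hL⟩ : ∃ L : ℝ, 1 ≤ L ∧ ∀ x ∈ closedBall (0 : E) 1, ‖fderiv ℝ g x‖ ≤ L := by
    obtain ⟨C, hC⟩ := hK.exists_bound_of_continuousOn (hgc.mono hBU)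
    exact ⟨max C 1, le_max_right _ _, fun x hx => (hC x hx).trans (le_max_left _ _)⟩
  have hLip : ∀ x ∈ closedBall (0 : E) 1, ∀ y ∈ closedBall (0 : E) 1,
      ‖g y - g x‖ ≤ L * ‖y - x‖ := fun x hx y hy =>
    (convex_closedBall (0 : E) 1).norm_image_sub_le_of_norm_fderiv_le
      (fun z hz => hgd z (hBU hz)) hL hx hy
  have hL0 : 0 < L := by linarith
  -- the key computation
  have key : ∀ t : ℝ, 0 < t → t ≤ 1 / (2 * L) →
      ∫ x in ball (0 : E) 1, (1 + t • fderiv ℝ g x).det = (volume (ball (0 : E) 1)).toReal := by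
    intro t ht0 ht1
    have htL : t * L ≤ 1 / 2 := by
      have := mul_le_mul_of_nonneg_right ht1 hL0.le
      have h3 : 1 / (2 * L) * L = 1 / 2 := by field_simp
      linarith
    have ht2 : t ≤ 1 / 2 := by nlinarith
    set f : E → E := fun x => x + t • g x with hf
    have hfd : ∀ x ∈ closedBall (0 : E) 1, HasStrictFDerivAt f (1 + t • fderiv ℝ g x) x := by
      intro x hx
      have hgx : HasStrictFDerivAt g (fderiv ℝ g x) x := by
        have := (hgU.contDiffAt (hU.mem_nhds (hBU hx)))
        exact this.hasStrictFDerivAt one_ne_zero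
      exact (hasStrictFDerivAt_id x).add (hgx.const_smul t)
    have hinj : InjOn f (closedBall (0 : E) 1) := by
      intro x hx y hy hxy
      have h3 : y - x = -(t • (g y - g x)) := by
        simp only [hf] at hxy
        rw [smul_sub]
        have : y = x + t • g x - t • g y := by rw [hxy]; abel
        calc y - x = (x + t • g x - t • g y) - x := by rw [← this]
          _ = -(t • g y - t • g x) := by abel
      have h4 : ‖y - x‖ ≤ 1 / 2 * ‖y - x‖ := by
        calc ‖y - x‖ = ‖t • (g y - g x)‖ := by rw [h3, norm_neg]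
          _ = t * ‖g y - g x‖ := by rw [norm_smul, Real.norm_of_nonneg ht0.le]
          _ ≤ t * (L * ‖y - x‖) := by gcongr; exact hLip x hx y hy
          _ = (t * L) * ‖y - x‖ := by ring
          _ ≤ 1 / 2 * ‖y - x‖ := by gcongr
      have h5 : ‖y - x‖ = 0 := by
        have := norm_nonneg (y - x)
        linarith
      exact (sub_eq_zero.1 (norm_eq_zero.1 h5)).symm
    have hconv : ∀ x, f x = (1 - t) • x + t • r x := by
      intro x
      simp only [hf, hg, smul_sub, sub_smul, one_smul]
      abel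
    have hmaps : ∀ x ∈ ball (0 : E) 1, f x ∈ ball (0 : E) 1 := by
      intro x hx
      have hx' : ‖x‖ < 1 := by simpa using hx
      rw [mem_ball_zero_iff, hconv]
      calc ‖(1 - t) • x + t • r x‖ ≤ ‖(1 - t) • x‖ + ‖t • r x‖ := norm_add_le _ _
        _ = (1 - t) * ‖x‖ + t * 1 := by
            rw [norm_smul, norm_smul, Real.norm_of_nonneg (by linarith : 0 ≤ 1 - t),
              Real.norm_of_nonneg ht0.le, h1 x (ball_subset_closedBall hx)]
        _ < 1 := by nlinarith
    have hdetne : ∀ x ∈ closedBall (0 : E) 1, ∀ s ∈ Icc (0 : ℝ) t,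
        (1 + s • fderiv ℝ g x).det ≠ 0 := by
      intro x hx s hs
      have hnorm : ‖s • fderiv ℝ g x‖ < 1 := by
        rw [norm_smul, Real.norm_of_nonneg hs.1]
        calc s * ‖fderiv ℝ g x‖ ≤ t * L := mul_le_mul hs.2 (hL x hx) (norm_nonneg _) ht0.le
          _ < 1 := by linarith
      have hu : IsUnit (1 + s • fderiv ℝ g x) := by
        have : 1 + s • fderiv ℝ g x = 1 - (-(s • fderiv ℝ g x)) := by abel
        rw [this]
        exact isUnit_one_sub_of_norm_lt_one (by rwa [norm_neg])
      obtain ⟨u, hu'⟩ := hu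
      have h5 : (u : E →L[ℝ] E).det * ((u⁻¹ : (E →L[ℝ] E)ˣ) : E →L[ℝ] E).det = 1 := by
        have h6 : ((u : E →L[ℝ] E) * ((u⁻¹ : (E →L[ℝ] E)ˣ) : E →L[ℝ] E)) = 1 := u.mul_inv
        have h7 : ((u : E →L[ℝ] E) * ((u⁻¹ : (E →L[ℝ] E)ˣ) : E →L[ℝ] E)).det
            = (u : E →L[ℝ] E).det * ((u⁻¹ : (E →L[ℝ] E)ˣ) : E →L[ℝ] E).det := by
          simp only [ContinuousLinearMap.det]
          rw [ContinuousLinearMap.toLinearMap_mul, map_mul]
        rw [← h7, h6]
        simp [ContinuousLinearMap.det]
      rw [← hu']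
      exact left_ne_zero_of_mul_eq_one h5
    have hdetpos : ∀ x ∈ closedBall (0 : E) 1, 0 < (1 + t • fderiv ℝ g x).det := by
      intro x hx
      have hcont : ContinuousOn (fun s : ℝ => (1 + s • fderiv ℝ g x).det) (Icc 0 t) := by
        have : Continuous (fun s : ℝ => (1 + s • fderiv ℝ g x).det) :=
          ContinuousLinearMap.continuous_det.comp (by fun_prop)
        exact this.continuousOn
      by_contra hneg
      push Not at hneg
      have h0 : (1 + (0 : ℝ) • fderiv ℝ g x).det = 1 := by
        simp [ContinuousLinearMap.det]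
      have hmem : (0 : ℝ) ∈ Icc ((1 + t • fderiv ℝ g x).det) ((1 + (0 : ℝ) • fderiv ℝ g x).det) := by
        rw [h0]; exact ⟨hneg, zero_le_one⟩
      obtain ⟨s, hs, hs0⟩ := intermediate_value_Icc' ht0.le hcont hmem
      exact hdetne x hx s hs hs0
    have hopen : IsOpen (f '' ball (0 : E) 1) := by
      rw [isOpen_iff_mem_nhds]
      rintro _ ⟨x, hx, rfl⟩
      have hxc := ball_subset_closedBall hx
      have hsurj : (1 + t • fderiv ℝ g x).range = ⊤ := by
        rw [LinearMap.range_eq_top]
        have hun : IsUnit (((1 + t • fderiv ℝ g x : E →L[ℝ] E) : E →ₗ[ℝ] E)) := by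
          rw [LinearMap.isUnit_iff_isUnit_det]
          exact isUnit_iff_ne_zero.2 (hdetne x hxc t ⟨ht0.le, le_rfl⟩)
        exact ((Module.End.isUnit_iff _).1 hun).surjective
      rw [← (hfd x hxc).map_nhds_eq_of_surj hsurj]
      exact Filter.image_mem_map (isOpen_ball.mem_nhds hx)
    have hcl : IsClosed (f '' closedBall (0 : E) 1) := by
      refine (hK.image_of_continuousOn ?_).isClosed
      exact fun x hx => (hfd x hx).hasFDerivAt.continuousAt.continuousWithinAt
    have himage : f '' ball (0 : E) 1 = ball (0 : E) 1 := by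
      apply Subset.antisymm
      · rintro _ ⟨x, hx, rfl⟩
        exact hmaps x hx
      · refine (isPreconnected_ball : IsPreconnected (ball (0 : E) 1)).subset_left_of_subset_union
          hopen hcl.isOpen_compl ?_ ?_ ?_
        · exact disjoint_compl_right.mono_left (image_mono ball_subset_closedBall)
        · intro y hy
          by_cases hy' : y ∈ f '' closedBall (0 : E) 1
          · left
            obtain ⟨x, hx, rfl⟩ := hy'
            refine ⟨x, ?_, rfl⟩
            rcases eq_or_lt_of_le (mem_closedBall_zero_iff.1 hx) with h | h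
            · exfalso
              have hxs : x ∈ sphere (0 : E) 1 := by simpa using h
              have : f x = x := by rw [hconv, h2 x hxs, ← add_smul]; simp
              rw [this, mem_ball_zero_iff] at hy
              linarith
            · simpa using h
          · right; exact hy'
        · refine ⟨f 0, hmaps 0 (by simp), ⟨0, by simp, rfl⟩⟩
    have hcv := lintegral_abs_det_fderiv_eq_addHaar_image (volume : Measure E)
      (measurableSet_ball : MeasurableSet (ball (0 : E) 1))
      (fun x hx => (hfd x (ball_subset_closedBall hx)).hasFDerivAt.hasFDerivWithinAt)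
      (hinj.mono ball_subset_closedBall)
    rw [himage] at hcv
    have habs : ∫⁻ x in ball (0 : E) 1, ENNReal.ofReal |(1 + t • fderiv ℝ g x).det|
        = ∫⁻ x in ball (0 : E) 1, ENNReal.ofReal ((1 + t • fderiv ℝ g x).det) :=
      setLIntegral_congr_fun measurableSet_ball fun x hx => by
        rw [abs_of_pos (hdetpos x (ball_subset_closedBall hx))]
    rw [habs] at hcv
    have hcontdet : ContinuousOn (fun x => (1 + t • fderiv ℝ g x).det) (ball (0 : E) 1) := by
      have := hgc.mono (ball_subset_closedBall.trans hBU)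
      exact ContinuousLinearMap.continuous_det.comp_continuousOn
        (continuousOn_const.add (this.const_smul t))
    rw [integral_eq_lintegral_of_nonneg_ae, hcv]
    · refine (ae_restrict_iff' measurableSet_ball).2 (Filter.Eventually.of_forall fun x hx => ?_)
      exact (hdetpos x (ball_subset_closedBall hx)).le
    · exact hcontdet.aestronglyMeasurable measurableSet_ball
  -- interpolation nodes
  let t : ℕ → ℝ := fun j => 1 / (2 * L * (j + 1))
  have htinj : Function.Injective t := by
    intro i j hij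
    simp only [t] at hij
    have h3 : (2 * L * ((i : ℝ) + 1)) = 2 * L * ((j : ℝ) + 1) := by
      have hi : (0 : ℝ) < 2 * L * ((i : ℝ) + 1) := by positivity
      have hj : (0 : ℝ) < 2 * L * ((j : ℝ) + 1) := by positivity
      field_simp at hij
      nlinarith
    have h4 : (i : ℝ) + 1 = (j : ℝ) + 1 := by
      have : (2 * L) ≠ 0 := by positivity
      exact mul_left_cancel₀ this h3
    exact_mod_cast (add_right_cancel h4)
  obtain ⟨w, hw⟩ := det_lagrange (E := E) t htinj
  have hwsum : ∑ j ∈ Finset.range (Module.finrank ℝ E + 1), w j = 1 := by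
    have := hw 0
    simp only [add_zero, smul_zero] at this
    have h1' : (1 : E →L[ℝ] E).det = 1 := by simp [ContinuousLinearMap.det]
    rw [h1'] at this
    simpa using this.symm
  have hint : ∀ c : ℝ, IntegrableOn (fun x => (1 + c • fderiv ℝ g x).det) (ball (0 : E) 1) := by
    intro c
    have hcont : ContinuousOn (fun x => (1 + c • fderiv ℝ g x).det) (closedBall (0 : E) 1) :=
      ContinuousLinearMap.continuous_det.comp_continuousOn
        (continuousOn_const.add ((hgc.mono hBU).const_smul c))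
    exact (hcont.integrableOn_compact hK).mono_set ball_subset_closedBall
  have hzero : ∀ x ∈ ball (0 : E) 1, (1 + fderiv ℝ g x).det = 0 := by
    intro x hx
    have hxU := hBU (ball_subset_closedBall hx)
    have hrd : DifferentiableAt ℝ r x :=
      (hr.differentiableOn one_ne_zero).differentiableAt (hU.mem_nhds hxU)
    have hfg : fderiv ℝ g x = fderiv ℝ r x - 1 := by
      have := (hrd.hasFDerivAt.sub (hasFDerivAt_id x)).fderiv
      exact this
    rw [hfg, add_sub_cancel]
    by_contra hne
    have hun : IsUnit (((fderiv ℝ r x : E →L[ℝ] E) : E →ₗ[ℝ] E)) := by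
      rw [LinearMap.isUnit_iff_isUnit_det]
      exact isUnit_iff_ne_zero.2 hne
    have hsurj := ((Module.End.isUnit_iff _).1 hun).surjective
    obtain ⟨v, hv⟩ := hsurj (r x)
    have hder : HasFDerivAt (fun y => ‖r y‖ ^ 2) (2 • (innerSL ℝ (r x)).comp (fderiv ℝ r x)) x := by
      have := hrd.hasFDerivAt.norm_sq
      exact this
    have hconst : HasFDerivAt (fun y => ‖r y‖ ^ 2) (0 : E →L[ℝ] ℝ) x := by
      refine (hasFDerivAt_const (1 : ℝ) x).congr_of_eventuallyEq ?_
      filter_upwards [isOpen_ball.mem_nhds hx] with y hy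
      rw [h1 y (ball_subset_closedBall hy)]; norm_num
    have heq := hder.unique hconst
    have h5 := congrArg (fun T : E →L[ℝ] ℝ => T v) heq
    simp only [smul_apply, ContinuousLinearMap.comp_apply,
      zero_apply, innerSL_apply_apply] at h5
    have hv' : fderiv ℝ r x v = r x := hv
    rw [hv', real_inner_self_eq_norm_sq, h1 x (ball_subset_closedBall hx)] at h5
    norm_num at h5
  have hfinal : (0 : ℝ) = (volume (ball (0 : E) 1)).toReal := by
    calc (0 : ℝ) = ∫ x in ball (0 : E) 1, (1 + fderiv ℝ g x).det := by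
          rw [setIntegral_congr_fun measurableSet_ball (fun x hx => hzero x hx)]
          simp
      _ = ∫ x in ball (0 : E) 1, ∑ j ∈ Finset.range (Module.finrank ℝ E + 1),
            w j * (1 + t j • fderiv ℝ g x).det := by
          congr 1
          funext x
          exact hw _
      _ = ∑ j ∈ Finset.range (Module.finrank ℝ E + 1),
            ∫ x in ball (0 : E) 1, w j * (1 + t j • fderiv ℝ g x).det :=
          integral_finsetSum _ fun j _ => (hint (t j)).const_mul _
      _ = ∑ j ∈ Finset.range (Module.finrank ℝ E + 1),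
            w j * (volume (ball (0 : E) 1)).toReal := by
          refine Finset.sum_congr rfl fun j _ => ?_
          rw [integral_const_mul, key (t j) (by positivity) ?_]
          simp only [t]
          apply one_div_le_one_div_of_le (by positivity)
          have : (0 : ℝ) ≤ j := Nat.cast_nonneg j
          nlinarith
      _ = (volume (ball (0 : E) 1)).toReal := by rw [← Finset.sum_mul, hwsum, one_mul]
  have hpos : 0 < (volume (ball (0 : E) 1)).toReal :=
    ENNReal.toReal_pos (measure_ball_pos volume _ one_pos).ne' measure_ball_lt_top.ne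
  linarith

/-- Continuous real functions on a compact set are uniform limits of smooth functions. -/
lemma exists_contDiff_approx {F : Type*} [NormedAddCommGroup F] [InnerProductSpace ℝ F]
    {K : Set F} (hK : IsCompact K) {f : F → ℝ} (hf : ContinuousOn f K) {ε : ℝ} (hε : 0 < ε) :
    ∃ g : F → ℝ, ContDiff ℝ 1 g ∧ ∀ x ∈ K, |g x - f x| < ε := by
  have : CompactSpace K := isCompact_iff_compactSpace.1 hK
  let A : Subalgebra ℝ C(K, ℝ) :=
    { carrier := {φ | ∃ g : F → ℝ, ContDiff ℝ 1 g ∧ ∀ x : K, φ x = g x}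
      mul_mem' := by
        rintro φ ψ ⟨g, hg, hg'⟩ ⟨h, hh, hh'⟩
        exact ⟨fun x => g x * h x, hg.mul hh, fun x => by simp [hg', hh']⟩
      add_mem' := by
        rintro φ ψ ⟨g, hg, hg'⟩ ⟨h, hh, hh'⟩
        exact ⟨fun x => g x + h x, hg.add hh, fun x => by simp [hg', hh']⟩
      algebraMap_mem' := fun c => ⟨fun _ => c, contDiff_const, fun x => rfl⟩ }
  have hsep : A.SeparatesPoints := by
    intro x y hxy
    let φ : C(K, ℝ) := ⟨fun z => inner ℝ ((x : F) - y) (z : F), by fun_prop⟩
    refine ⟨φ, ⟨φ, ⟨fun z => inner ℝ ((x : F) - y) z, contDiff_const.inner ℝ contDiff_id,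
      fun z => rfl⟩, rfl⟩, ?_⟩
    intro h
    have h2 : inner ℝ ((x : F) - y) ((x : F) - y) = 0 := by
      rw [inner_sub_right]
      exact sub_eq_zero.2 h
    rw [inner_self_eq_zero, sub_eq_zero] at h2
    exact hxy (Subtype.ext h2)
  let φ : C(K, ℝ) := ⟨fun x => f x, continuousOn_iff_continuous_domRestrict.1 hf⟩
  obtain ⟨⟨ψ, g, hg, hψ⟩, hφ⟩ :=
    ContinuousMap.exists_mem_subalgebra_near_continuousMap_of_separatesPoints A hsep φ ε hε
  refine ⟨g, hg, fun x hx => ?_⟩
  have h1 : ‖(ψ - φ) ⟨x, hx⟩‖ < ε := lt_of_le_of_lt (ContinuousMap.norm_coe_le_norm _ _) hφ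
  have h2 : (ψ - φ) ⟨x, hx⟩ = g x - f x := by
    simp only [ContinuousMap.sub_apply, hψ]
    rfl
  rwa [h2] at h1

omit [MeasurableSpace E] [BorelSpace E] in
lemma exists_contDiff_approx_vec {K : Set E} (hK : IsCompact K) {f : E → E}
    (hf : ContinuousOn f K) {ε : ℝ} (hε : 0 < ε) :
    ∃ g : E → E, ContDiff ℝ 1 g ∧ ∀ x ∈ K, ‖g x - f x‖ < ε := by
  let b := stdOrthonormalBasis ℝ E
  set n := Module.finrank ℝ E
  have hε' : 0 < ε / (n + 1) := by positivity
  have h : ∀ i : Fin n, ∃ g : E → ℝ, ContDiff ℝ 1 g ∧ ∀ x ∈ K,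
      |g x - inner ℝ (b i) (f x)| < ε / (n + 1) := fun i =>
    exists_contDiff_approx hK (by fun_prop) hε'
  choose g hg hg' using h
  refine ⟨fun x => ∑ i, g i x • b i, ContDiff.sum fun i _ => (hg i).smul contDiff_const,
    fun x hx => ?_⟩
  have h1 : (∑ i, g i x • b i) - f x = ∑ i, (g i x - inner ℝ (b i) (f x)) • b i := by
    conv_lhs => rw [← b.sum_repr' (f x)]
    rw [← Finset.sum_sub_distrib]
    refine Finset.sum_congr rfl fun i _ => ?_
    rw [sub_smul]
  rw [h1]
  calc ‖∑ i, (g i x - inner ℝ (b i) (f x)) • b i‖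
      ≤ ∑ i, ‖(g i x - inner ℝ (b i) (f x)) • b i‖ := norm_sum_le _ _
    _ ≤ ∑ _i : Fin n, ε / (n + 1) := by
        refine Finset.sum_le_sum fun i _ => ?_
        rw [norm_smul, b.norm_eq_one, mul_one]
        exact (hg' i x hx).le
    _ = n * (ε / (n + 1)) := by simp
    _ < ε := by
        rw [mul_div_assoc', div_lt_iff₀ (by positivity)]
        nlinarith

/-- **Brouwer's fixed point theorem** for the closed unit ball. -/
theorem exists_fixedPoint {φ : E → E} (hφ : ContinuousOn φ (closedBall (0 : E) 1))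
    (hmap : MapsTo φ (closedBall (0 : E) 1) (closedBall (0 : E) 1)) :
    ∃ x ∈ closedBall (0 : E) 1, φ x = x := by
  by_contra hne
  push Not at hne
  have hK : IsCompact (closedBall (0 : E) 1) := isCompact_closedBall _ _
  obtain ⟨δ, hδ, hδ'⟩ : ∃ δ : ℝ, 0 < δ ∧ ∀ x ∈ closedBall (0 : E) 1, δ ≤ ‖φ x - x‖ := by
    obtain ⟨x0, hx0, hmin⟩ := hK.exists_isMinOn ⟨0, by simp⟩
      (f := fun x => ‖φ x - x‖) (hφ.sub continuousOn_id).norm
    exact ⟨‖φ x0 - x0‖, norm_pos_iff.2 (sub_ne_zero.2 (hne x0 hx0)), fun x hx => hmin hx⟩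
  obtain ⟨ψ, hψ, hψ'⟩ := exists_contDiff_approx_vec hK hφ (ε := δ / 4) (by positivity)
  set c : ℝ := (1 + δ / 4)⁻¹ with hc
  have hc0 : 0 < c := by positivity
  have hc1 : c < 1 := inv_lt_one_of_one_lt₀ (by linarith)
  have hcc : c * (1 + δ / 4) = 1 := inv_mul_cancel₀ (by positivity)
  set h : E → E := fun x => c • ψ x with hh
  have hhC : ContDiff ℝ 1 h := contDiff_const.smul hψ
  have hψn : ∀ x ∈ closedBall (0 : E) 1, ‖ψ x‖ < 1 + δ / 4 := by
    intro x hx
    have h1 := hψ' x hx
    have h2 : ‖φ x‖ ≤ 1 := mem_closedBall_zero_iff.1 (hmap hx)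
    calc ‖ψ x‖ = ‖(ψ x - φ x) + φ x‖ := by rw [sub_add_cancel]
      _ ≤ ‖ψ x - φ x‖ + ‖φ x‖ := norm_add_le _ _
      _ < 1 + δ / 4 := by linarith
  have hh1 : ∀ x ∈ closedBall (0 : E) 1, ‖h x‖ ≤ 1 := by
    intro x hx
    rw [hh]
    simp only [norm_smul, Real.norm_of_nonneg hc0.le]
    calc c * ‖ψ x‖ ≤ c * (1 + δ / 4) := by gcongr; exact (hψn x hx).le
      _ = 1 := hcc
  have hhne : ∀ x ∈ closedBall (0 : E) 1, x - h x ≠ 0 := by
    intro x hx h0
    have h1 : ‖h x - ψ x‖ ≤ δ / 4 := by
      have : h x - ψ x = -((1 - c) • ψ x) := by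
        simp only [hh, sub_smul, one_smul]; abel
      rw [this, norm_neg, norm_smul, Real.norm_of_nonneg (by linarith : 0 ≤ 1 - c)]
      calc (1 - c) * ‖ψ x‖ ≤ (1 - c) * (1 + δ / 4) := by
            have := (hψn x hx).le
            have h2 : 0 ≤ 1 - c := by linarith
            gcongr
        _ = δ / 4 := by linarith
    have h2 := hψ' x hx
    have h3 := hδ' x hx
    have h4 : φ x - x = -(ψ x - φ x) - (h x - ψ x) := by
      have h6 : h x = x := (sub_eq_zero.1 h0).symm
      rw [h6]
      abel
    have h5 : ‖φ x - x‖ ≤ ‖ψ x - φ x‖ + ‖h x - ψ x‖ := by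
      rw [h4]
      calc ‖-(ψ x - φ x) - (h x - ψ x)‖ ≤ ‖-(ψ x - φ x)‖ + ‖h x - ψ x‖ := norm_sub_le _ _
        _ = _ := by rw [norm_neg]
    linarith
  -- the retraction
  set v : E → E := fun x => x - h x with hv
  have hvC : ContDiff ℝ 1 v := contDiff_id.sub hhC
  set p : E → ℝ := fun x => inner ℝ x (v x) with hp
  have hpC : ContDiff ℝ 1 p := contDiff_id.inner ℝ hvC
  set q : E → ℝ := fun x => ‖v x‖ ^ 2 with hq
  have hqC : ContDiff ℝ 1 q := hvC.norm_sq ℝ
  set D : E → ℝ := fun x => p x ^ 2 + q x * (1 - ‖x‖ ^ 2) with hD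
  have hDC : ContDiff ℝ 1 D := (hpC.pow 2).add (hqC.mul (contDiff_const.sub (contDiff_norm_sq ℝ)))
  set U : Set E := {x | 0 < D x ∧ 0 < q x} with hU
  have hUo : IsOpen U := by
    apply IsOpen.inter
    · exact isOpen_lt continuous_const hDC.continuous
    · exact isOpen_lt continuous_const hqC.continuous
  have hsph : ∀ x ∈ sphere (0 : E) 1, 0 < p x := by
    intro x hx
    have hx1 : ‖x‖ = 1 := by simpa using hx
    have hxc : x ∈ closedBall (0 : E) 1 := sphere_subset_closedBall hx
    have h1 : p x = 1 - inner ℝ x (h x) := by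
      simp only [hp, hv, inner_sub_right, real_inner_self_eq_norm_sq, hx1]
      norm_num
    have h2 : 0 < ‖x - h x‖ ^ 2 := by
      have := norm_pos_iff.2 (hhne x hxc)
      positivity
    rw [norm_sub_sq_real, hx1] at h2
    have h3 : ‖h x‖ ^ 2 ≤ 1 := by
      have := hh1 x hxc
      have h0 := norm_nonneg (h x)
      nlinarith
    rw [h1]
    linarith
  have hBU : closedBall (0 : E) 1 ⊆ U := by
    intro x hx
    have hq0 : 0 < q x := by
      have := norm_pos_iff.2 (hhne x hx)
      simp only [hq, hv]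
      positivity
    refine ⟨?_, hq0⟩
    rcases eq_or_lt_of_le (mem_closedBall_zero_iff.1 hx) with h1 | h1
    · have := hsph x (by simpa using h1)
      simp only [hD, h1]
      nlinarith
    · have h2 : 0 < 1 - ‖x‖ ^ 2 := by
        have := norm_nonneg x
        nlinarith
      have h3 := mul_pos hq0 h2
      simp only [hD]
      nlinarith [sq_nonneg (p x)]
  set r : E → E := fun x => x + ((-(p x) + √(D x)) / q x) • v x with hr
  have hrC : ContDiffOn ℝ 1 r U := by
    intro x hx
    have h1 : ContDiffAt ℝ 1 (fun x => √(D x)) x := hDC.contDiffAt.sqrt hx.1.ne'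
    have h2 : ContDiffAt ℝ 1 (fun x => (-(p x) + √(D x)) / q x) x :=
      (hpC.contDiffAt.neg.add h1).div hqC.contDiffAt hx.2.ne'
    exact (contDiffAt_id.add (h2.smul hvC.contDiffAt)).contDiffWithinAt
  refine no_retraction hUo hBU hrC ?_ ?_
  · intro x hx
    have hxU := hBU hx
    have hs : √(D x) ^ 2 = D x := Real.sq_sqrt hxU.1.le
    have h1 : ‖r x‖ ^ 2 = 1 := by
      simp only [hr]
      rw [norm_add_sq_real, inner_smul_right, norm_smul, mul_pow, Real.norm_eq_abs, sq_abs]
      have hqx : q x ≠ 0 := hxU.2.ne'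
      change ‖x‖ ^ 2 + 2 * ((-p x + √(D x)) / q x * p x) + ((-p x + √(D x)) / q x) ^ 2 * q x = 1
      field_simp
      have : √(D x) ^ 2 = p x ^ 2 + q x * (1 - ‖x‖ ^ 2) := hs
      nlinarith
    have h2 := norm_nonneg (r x)
    nlinarith
  · intro x hx
    have hx1 : ‖x‖ = 1 := by simpa using hx
    have hp0 := hsph x hx
    have hDx : D x = p x ^ 2 := by simp [hD, hx1]
    simp only [hr, hDx, Real.sqrt_sq hp0.le]
    simp

/-- A continuous vector field pointing inwards on the sphere of radius `R` has a zero. -/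
theorem exists_zero {G : E → E} (hG : Continuous G) {R : ℝ} (hR : 0 < R)
    (hin : ∀ x, ‖x‖ = R → inner ℝ (G x) x ≤ 0) : ∃ x, ‖x‖ ≤ R ∧ G x = 0 := by
  -- radial projection onto the closed ball of radius 1
  let P : E → E := fun y => (max 1 ‖y‖)⁻¹ • y
  have hP : Continuous P := by
    refine Continuous.smul ?_ continuous_id
    exact (continuous_const.max continuous_norm).inv₀ fun y =>
      (lt_of_lt_of_le one_pos (le_max_left _ _)).ne'
  have hPn : ∀ y, ‖P y‖ ≤ 1 := by
    intro y
    have h0 : 0 < max 1 ‖y‖ := lt_of_lt_of_le one_pos (le_max_left _ _)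
    simp only [P, norm_smul, norm_inv, Real.norm_of_nonneg h0.le]
    rw [inv_mul_le_iff₀ h0, mul_one]
    exact le_max_right _ _
  obtain ⟨x, hx, hfix⟩ := exists_fixedPoint (φ := fun x => P (x + G (R • x)))
    (hP.comp (by fun_prop)).continuousOn (fun x _ => mem_closedBall_zero_iff.2 (hPn _))
  have hx1 : ‖x‖ ≤ 1 := mem_closedBall_zero_iff.1 hx
  refine ⟨R • x, ?_, ?_⟩
  · rw [norm_smul, Real.norm_of_nonneg hR.le]
    nlinarith
  · by_contra hne
    simp only [P] at hfix
    set m := max 1 ‖x + G (R • x)‖ with hm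
    have hm1 : 1 ≤ m := le_max_left _ _
    have hm0 : 0 < m := by linarith
    have h1 : x + G (R • x) = m • x := by
      conv_rhs => rw [← hfix]
      rw [smul_smul, mul_inv_cancel₀ hm0.ne', one_smul]
    have h2 : G (R • x) = (m - 1) • x := by
      rw [sub_smul, one_smul, ← h1]; abel
    have hm2 : 1 < m := by
      rcases eq_or_lt_of_le hm1 with h | h
      · exfalso
        apply hne
        rw [h2, ← h]; simp
      · exact h
    have h3 : m = ‖x + G (R • x)‖ := by
      rcases le_total 1 ‖x + G (R • x)‖ with h | h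
      · exact max_eq_right h
      · exfalso
        rw [hm, max_eq_left h] at hm2
        exact lt_irrefl _ hm2
    have h4 : ‖x‖ = 1 := by
      rw [h1, norm_smul, Real.norm_of_nonneg hm0.le] at h3
      have : m * ‖x‖ = m * 1 := by rw [mul_one]; exact h3.symm
      exact mul_left_cancel₀ hm0.ne' this
    have h5 := hin (R • x) (by rw [norm_smul, h4, Real.norm_of_nonneg hR.le, mul_one])
    rw [h2, inner_smul_left, inner_smul_right, real_inner_self_eq_norm_sq, h4] at h5
    simp only [RCLike.conj_to_real] at h5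
    have : 0 < (m - 1) * (R * 1 ^ 2) := by
      have : 0 < m - 1 := by linarith
      positivity
    linarith

end Pool.Agent.WN.Brouwer
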